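import Mathlib

/-!
# The non-uniform error of private anonymized histograms is `Ω(√n / e^ε)`
-/

open Finset MeasureTheory
open scoped ENNReal BigOperators

namespace Pool.Agent.Results.MP_c9d3d4_lc.NonUniformLower

/-- The size of a sequence of non-negative integers: the sum of its entries. -/
noncomputable def size (p : ℕ → ℕ) : ℝ≥0∞ := ∑' i, (p i : ℝ≥0∞)

/-- Integer partitions of size exactly `n`. -/
def PartEq (n : ℕ) : Set (ℕ → ℕ) := {p | Antitone p ∧ size p = n}

/-- Integer partitions of size at most `n`. -/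
def PartLe (n : ℕ) : Set (ℕ → ℕ) := {p | Antitone p ∧ size p ≤ n}

/-- A sequence of non-negative integers, seen as a real sequence. -/
def toRealSeq (p : ℕ → ℕ) : ℕ → ℝ := fun i => (p i : ℝ)

/-- The `ℓ₁`-distance of two real sequences. -/
noncomputable def l1 (x y : ℕ → ℝ) : ℝ≥0∞ := ∑' i, ENNReal.ofReal |x i - y i|

/-- Two partitions are neighbours if their `ℓ₁`-distance is at most `1`. -/
def Neighbours (p q : ℕ → ℕ) : Prop := l1 (toRealSeq p) (toRealSeq q) ≤ 1

/-- A randomized algorithm with inputs in `PartLe n` and outputs real sequences: `A p` is the law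
of the output on input `p`. -/
def IsAlgorithm (n : ℕ) (A : (ℕ → ℕ) → Measure (ℕ → ℝ)) : Prop :=
  ∀ p ∈ PartLe n, IsProbabilityMeasure (A p)

/-- `ε`-differential privacy on `PartLe n`. -/
def IsDP (ε : ℝ) (n : ℕ) (A : (ℕ → ℕ) → Measure (ℕ → ℝ)) : Prop :=
  ∀ p ∈ PartLe n, ∀ q ∈ PartLe n, Neighbours p q → ∀ S : Set (ℕ → ℝ), MeasurableSet S →
    A p S ≤ ENNReal.ofReal (Real.exp ε) * A q S

/-- The expected `ℓ₁`-error of the algorithm `A` on input `p`. -/
noncomputable def err (A : (ℕ → ℕ) → Measure (ℕ → ℝ)) (p : ℕ → ℕ) : ℝ≥0∞ :=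
  ∫⁻ z, l1 z (toRealSeq p) ∂(A p)

section Counting

/-- number of mistakes -/
def dist (x T : Finset ℕ) : ℕ := #(x \ T) + #(T \ x)

/-- The slice: subsets of `{0, …, 2m-1}` with `m` elements. -/
def slice (m : ℕ) : Finset (Finset ℕ) := powersetCard m (range (2 * m))

theorem mem_slice {m : ℕ} {x : Finset ℕ} : x ∈ slice m ↔ x ⊆ range (2 * m) ∧ #x = m :=
  mem_powersetCard

/-- swapping `i` for `j`. -/
def sw (i j : ℕ) (x : Finset ℕ) : Finset ℕ := insert j (x.erase i)

theorem sw_mem_slice {m i j : ℕ} {x : Finset ℕ} (hx : x ∈ slice m) (hi : i ∈ x) (hj : j ∉ x)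
    (hj' : j ∈ range (2 * m)) : sw i j x ∈ slice m := by
  rw [mem_slice] at hx ⊢
  refine ⟨?_, ?_⟩
  · intro a ha
    rcases mem_insert.1 ha with rfl | ha
    · exact hj'
    · exact hx.1 (mem_of_mem_erase ha)
  · have h1 : j ∉ x.erase i := fun h => hj (mem_of_mem_erase h)
    have h2 : 0 < #x := card_pos.2 ⟨i, hi⟩
    rw [sw, card_insert_of_notMem h1, card_erase_of_mem hi]
    omega

theorem sw_sw {i j : ℕ} {x : Finset ℕ} (hi : i ∈ x) (hj : j ∉ x) : sw j i (sw i j x) = x := by
  have h1 : j ∉ x.erase i := fun h => hj (mem_of_mem_erase h)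
  rw [sw, sw, erase_insert h1, insert_erase hi]

theorem dist_sw {i j : ℕ} {x T : Finset ℕ} (hi : i ∈ x) (hj : j ∉ x) (hiT : i ∈ T) (hjT : j ∉ T) :
    dist (sw i j x) T = dist x T + 2 := by
  have hij : i ≠ j := by rintro rfl; exact hj hi
  have h1 : sw i j x \ T = insert j (x \ T) := by
    ext a
    simp only [sw, mem_sdiff, mem_insert, mem_erase]
    constructor
    · rintro ⟨rfl | ⟨h1, h2⟩, h3⟩
      · exact Or.inl rfl
      · exact Or.inr ⟨h2, h3⟩
    · rintro (rfl | ⟨h1, h2⟩)
      · exact ⟨Or.inl rfl, hjT⟩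
      · refine ⟨Or.inr ⟨?_, h1⟩, h2⟩
        intro hai
        rw [hai] at h2
        exact h2 hiT
  have h2 : T \ sw i j x = insert i (T \ x) := by
    ext a
    simp only [sw, mem_sdiff, mem_insert, mem_erase, not_or, not_and]
    constructor
    · rintro ⟨h1, h2, h3⟩
      by_cases ha : a = i
      · exact Or.inl ha
      · exact Or.inr ⟨h1, h3 ha⟩
    · rintro (rfl | ⟨h1, h2⟩)
      · exact ⟨hiT, hij, fun h => absurd rfl h⟩
      · refine ⟨h1, ?_, fun _ => h2⟩
        intro haj
        rw [haj] at h1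
        exact hjT h1
  have h3 : j ∉ x \ T := fun h => hj (mem_sdiff.1 h).1
  have h4 : i ∉ T \ x := fun h => (mem_sdiff.1 h).2 hi
  rw [dist, dist, h1, h2, card_insert_of_notMem h3, card_insert_of_notMem h4]
  ring

/-- The swap inequality for one pair `(i, j)`. -/
theorem pair_ineq {m θ i j : ℕ} {T : Finset ℕ} {w : Finset ℕ → ℝ} {c : ℝ}
    (hj : j ∈ range (2 * m)) (hi' : i ∈ range (2 * m)) (hiT : i ∈ T) (hjT : j ∉ T)
    (hsw : ∀ x ∈ slice m, ∀ i ∈ x, ∀ j ∈ range (2 * m), j ∉ x → w x ≤ c * w (sw i j x)) :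
    ∑ x ∈ (slice m).filter (fun x => dist x T ≤ θ ∧ i ∈ x ∧ j ∉ x), w x ≤
      c * ∑ x ∈ (slice m).filter (fun x => dist x T ≤ θ + 2 ∧ i ∉ x ∧ j ∈ x), w x := by
  rw [mul_sum]
  calc ∑ x ∈ (slice m).filter (fun x => dist x T ≤ θ ∧ i ∈ x ∧ j ∉ x), w x
      ≤ ∑ x ∈ (slice m).filter (fun x => dist x T ≤ θ ∧ i ∈ x ∧ j ∉ x), c * w (sw i j x) := by
        refine sum_le_sum fun x hx => ?_
        obtain ⟨h1, h2, h3, h4⟩ := mem_filter.1 hx
        exact hsw x h1 i h3 j hj h4
    _ = ∑ x ∈ (slice m).filter (fun x => dist x T ≤ θ + 2 ∧ i ∉ x ∧ j ∈ x), c * w x := by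
        refine sum_nbij' (sw i j) (sw j i) ?_ ?_ ?_ ?_ ?_
        · intro x hx
          obtain ⟨h1, h2, h3, h4⟩ := mem_filter.1 hx
          have hij : i ≠ j := by rintro rfl; exact h4 h3
          refine mem_filter.2 ⟨sw_mem_slice h1 h3 h4 hj, ?_, ?_, ?_⟩
          · rw [dist_sw h3 h4 hiT hjT]; omega
          · simp [sw, hij]
          · simp [sw]
        · intro x hx
          obtain ⟨h1, h2, h3, h4⟩ := mem_filter.1 hx
          have hij : j ≠ i := by rintro rfl; exact h3 h4
          refine mem_filter.2 ⟨sw_mem_slice h1 h4 h3 hi', ?_, ?_, ?_⟩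
          · have h5 : dist (sw i j (sw j i x)) T = dist (sw j i x) T + 2 := by
              apply dist_sw _ _ hiT hjT
              · simp [sw]
              · simp [sw, hij]
            rw [sw_sw h4 h3] at h5
            omega
          · simp [sw]
          · simp [sw, hij]
        · intro x hx
          obtain ⟨h1, h2, h3, h4⟩ := mem_filter.1 hx
          exact sw_sw h3 h4
        · intro x hx
          obtain ⟨h1, h2, h3, h4⟩ := mem_filter.1 hx
          exact sw_sw h4 h3
        · intro x hx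
          rfl

theorem card_inter_eq (A x : Finset ℕ) : (#(A ∩ x) : ℝ) = ∑ a ∈ A, if a ∈ x then (1 : ℝ) else 0 := by
  rw [← filter_mem_eq_inter, card_filter]
  push_cast
  rfl

theorem card_sdiff_eq (A x : Finset ℕ) : (#(A \ x) : ℝ) = ∑ a ∈ A, if a ∈ x then (0 : ℝ) else 1 := by
  rw [← filter_notMem_eq_sdiff, card_filter]
  push_cast
  exact sum_congr rfl fun a _ => by by_cases h : a ∈ x <;> simp [h]

/-- The double counting inequality. -/
theorem count_ineq {m θ : ℕ} {T : Finset ℕ} (hT : T ⊆ range (2 * m)) {w : Finset ℕ → ℝ}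
    (hw : ∀ x, 0 ≤ w x) {c : ℝ} (hc : 0 ≤ c)
    (hsw : ∀ x ∈ slice m, ∀ i ∈ x, ∀ j ∈ range (2 * m), j ∉ x → w x ≤ c * w (sw i j x)) :
    (m : ℝ) * (m - θ) * ∑ x ∈ (slice m).filter (fun x => dist x T ≤ θ), w x ≤
      c * ((θ + 2 : ℝ) ^ 2 / 4) * ∑ x ∈ slice m, w x := by
  -- sum the pair inequality
  have h1 : ∑ i ∈ T, ∑ j ∈ range (2 * m) \ T,
      ∑ x ∈ (slice m).filter (fun x => dist x T ≤ θ ∧ i ∈ x ∧ j ∉ x), w x ≤
      ∑ i ∈ T, ∑ j ∈ range (2 * m) \ T,
      c * ∑ x ∈ (slice m).filter (fun x => dist x T ≤ θ + 2 ∧ i ∉ x ∧ j ∈ x), w x := by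
    refine sum_le_sum fun i hi => sum_le_sum fun j hj => ?_
    obtain ⟨hj1, hj2⟩ := mem_sdiff.1 hj
    exact pair_ineq hj1 (hT hi) hi hj2 hsw
  have h2 : ∑ i ∈ T, ∑ j ∈ range (2 * m) \ T,
      ∑ x ∈ (slice m).filter (fun x => dist x T ≤ θ ∧ i ∈ x ∧ j ∉ x), w x =
      ∑ x ∈ (slice m).filter (fun x => dist x T ≤ θ),
        (#(T ∩ x) : ℝ) * (#((range (2 * m) \ T) \ x) : ℝ) * w x := by
    simp only [sum_filter]
    rw [sum_congr rfl fun i _ => sum_comm, sum_comm]
    refine sum_congr rfl fun x _ => ?_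
    by_cases hd : dist x T ≤ θ
    · simp only [hd, true_and, if_true]
      rw [card_inter_eq, card_sdiff_eq (range (2 * m) \ T) x, sum_mul_sum, sum_mul]
      refine sum_congr rfl fun i _ => ?_
      rw [sum_mul]
      refine sum_congr rfl fun j _ => ?_
      by_cases hi : i ∈ x <;> by_cases hj : j ∈ x <;> simp [hi, hj]
    · simp [hd]
  have h3 : ∑ i ∈ T, ∑ j ∈ range (2 * m) \ T,
      c * ∑ x ∈ (slice m).filter (fun x => dist x T ≤ θ + 2 ∧ i ∉ x ∧ j ∈ x), w x =
      c * ∑ x ∈ (slice m).filter (fun x => dist x T ≤ θ + 2),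
        (#(T \ x) : ℝ) * (#((range (2 * m) \ T) ∩ x) : ℝ) * w x := by
    simp only [← mul_sum]
    congr 1
    simp only [sum_filter]
    rw [sum_congr rfl fun i _ => sum_comm, sum_comm]
    refine sum_congr rfl fun x _ => ?_
    by_cases hd : dist x T ≤ θ + 2
    · simp only [hd, true_and, if_true]
      rw [card_inter_eq, card_sdiff_eq T x, sum_mul_sum, sum_mul]
      refine sum_congr rfl fun i _ => ?_
      rw [sum_mul]
      refine sum_congr rfl fun j _ => ?_
      by_cases hi : i ∈ x <;> by_cases hj : j ∈ x <;> simp [hi, hj]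
    · simp [hd]
  rw [h2, h3] at h1
  -- lower bound for the left side
  have h4 : (m : ℝ) * (m - θ) * ∑ x ∈ (slice m).filter (fun x => dist x T ≤ θ), w x ≤
      ∑ x ∈ (slice m).filter (fun x => dist x T ≤ θ),
        (#(T ∩ x) : ℝ) * (#((range (2 * m) \ T) \ x) : ℝ) * w x := by
    rw [mul_sum]
    refine sum_le_sum fun x hx => ?_
    obtain ⟨hx1, hx2⟩ := mem_filter.1 hx
    obtain ⟨hx3, hx4⟩ := mem_slice.1 hx1
    refine mul_le_mul_of_nonneg_right ?_ (hw x)
    have e1 : #(T ∩ x) + #(x \ T) = m := by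
      rw [inter_comm, card_inter_add_card_sdiff, hx4]
    have e2 : #((range (2 * m) \ T) \ x) + #(T \ x) = m := by
      have h5 : #(range (2 * m) \ x) = m := by
        rw [card_sdiff_of_subset hx3, card_range, hx4]; omega
      have h6 : (range (2 * m) \ T) \ x = (range (2 * m) \ x) \ (T \ x) := by
        ext a
        simp only [mem_sdiff, not_and, not_not]
        tauto
      have h7 : T \ x ⊆ range (2 * m) \ x := sdiff_subset_sdiff hT (Subset.refl _)
      have h8 : #(T \ x) ≤ #(range (2 * m) \ x) := card_le_card h7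
      rw [h6, card_sdiff_of_subset h7, h5]
      omega
    have e1' : (#(T ∩ x) : ℝ) = m - #(x \ T) := by
      rw [← e1]; push_cast; ring
    have e2' : (#((range (2 * m) \ T) \ x) : ℝ) = m - #(T \ x) := by
      rw [eq_sub_iff_add_eq]; exact_mod_cast e2
    have e3 : (#(x \ T) : ℝ) + #(T \ x) ≤ θ := by
      have : #(x \ T) + #(T \ x) ≤ θ := hx2
      exact_mod_cast this
    rw [e1', e2']
    have p1 : (0 : ℝ) ≤ #(x \ T) := by positivity
    have p2 : (0 : ℝ) ≤ #(T \ x) := by positivity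
    have p3 : (0 : ℝ) ≤ m := by positivity
    nlinarith [mul_nonneg p1 p2, mul_le_mul_of_nonneg_left e3 p3]
  have h5 : c * ∑ x ∈ (slice m).filter (fun x => dist x T ≤ θ + 2),
        (#(T \ x) : ℝ) * (#((range (2 * m) \ T) ∩ x) : ℝ) * w x ≤
      c * ((θ + 2 : ℝ) ^ 2 / 4) * ∑ x ∈ slice m, w x := by
    rw [mul_assoc]
    refine mul_le_mul_of_nonneg_left ?_ hc
    rw [mul_sum]
    refine (sum_le_sum (g := fun x => (θ + 2 : ℝ) ^ 2 / 4 * w x) fun x hx => ?_).trans
      (sum_le_sum_of_subset_of_nonneg (filter_subset _ _) fun x _ _ =>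
        mul_nonneg (by positivity) (hw x))
    obtain ⟨hx1, hx2⟩ := mem_filter.1 hx
    obtain ⟨hx3, hx4⟩ := mem_slice.1 hx1
    refine mul_le_mul_of_nonneg_right ?_ (hw x)
    have e1 : (range (2 * m) \ T) ∩ x = x \ T := by
      ext a
      simp only [mem_inter, mem_sdiff]
      constructor
      · rintro ⟨⟨-, h⟩, h'⟩; exact ⟨h', h⟩
      · rintro ⟨h', h⟩; exact ⟨⟨hx3 h', h⟩, h'⟩
    rw [e1]
    have e3 : (#(x \ T) : ℝ) + #(T \ x) ≤ θ + 2 := by
      have : #(x \ T) + #(T \ x) ≤ θ + 2 := hx2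
      exact_mod_cast this
    have p1 : (0 : ℝ) ≤ #(x \ T) := by positivity
    have p2 : (0 : ℝ) ≤ #(T \ x) := by positivity
    nlinarith [sq_nonneg ((#(x \ T) : ℝ) - #(T \ x)),
      mul_self_le_mul_self (by positivity) e3]
  exact h4.trans (h1.trans h5)

/-- Averaging: some `x` in the slice has a large expected number of mistakes. -/
theorem exists_large {m θ : ℕ} {c : ℝ} (hc : 0 ≤ c) (μ : Finset ℕ → Finset ℕ → ℝ)
    (hμ : ∀ x T, 0 ≤ μ x T)
    (hsum : ∀ x ∈ slice m, ∑ T ∈ (range (2 * m)).powerset, μ x T = 1)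
    (hsw : ∀ T, ∀ x ∈ slice m, ∀ i ∈ x, ∀ j ∈ range (2 * m), j ∉ x → μ x T ≤ c * μ (sw i j x) T)
    (hpos : 0 < (m : ℝ) * (m - θ))
    (hnum : c * ((θ + 2 : ℝ) ^ 2 / 4) ≤ (m : ℝ) * (m - θ) / 2) :
    ∃ x ∈ slice m, ((θ : ℝ) + 1) / 2 ≤ ∑ T ∈ (range (2 * m)).powerset, (dist x T : ℝ) * μ x T := by
  by_contra hcon
  push Not at hcon
  have hne : (slice m).Nonempty := ⟨range m, mem_slice.2
    ⟨range_subset_range.2 (by omega), card_range m⟩⟩
  have hN : (0 : ℝ) < #(slice m) := by exact_mod_cast card_pos.2 hne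
  -- the mass of the pairs with few mistakes
  have h1 : ∑ T ∈ (range (2 * m)).powerset, ∑ x ∈ (slice m).filter (fun x => dist x T ≤ θ), μ x T ≤
      (#(slice m) : ℝ) / 2 := by
    have h2 : (m : ℝ) * (m - θ) * ∑ T ∈ (range (2 * m)).powerset,
        ∑ x ∈ (slice m).filter (fun x => dist x T ≤ θ), μ x T ≤
        (m : ℝ) * (m - θ) / 2 * #(slice m) := by
      rw [mul_sum]
      calc ∑ T ∈ (range (2 * m)).powerset, (m : ℝ) * (m - θ) *
            ∑ x ∈ (slice m).filter (fun x => dist x T ≤ θ), μ x T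
          ≤ ∑ T ∈ (range (2 * m)).powerset, c * ((θ + 2 : ℝ) ^ 2 / 4) *
            ∑ x ∈ slice m, μ x T := by
            refine sum_le_sum fun T hT => ?_
            exact count_ineq (mem_powerset.1 hT) (fun x => hμ x T) hc (hsw T)
        _ = c * ((θ + 2 : ℝ) ^ 2 / 4) * #(slice m) := by
            rw [← mul_sum, sum_comm, sum_congr rfl hsum]
            simp
        _ ≤ (m : ℝ) * (m - θ) / 2 * #(slice m) := by
            exact mul_le_mul_of_nonneg_right hnum hN.le
    have h3 : (m : ℝ) * (m - θ) * ∑ T ∈ (range (2 * m)).powerset,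
        ∑ x ∈ (slice m).filter (fun x => dist x T ≤ θ), μ x T ≤
        (m : ℝ) * (m - θ) * ((#(slice m) : ℝ) / 2) := by linarith
    exact le_of_mul_le_mul_left h3 hpos
  have h4 : ∑ x ∈ slice m, ∑ T ∈ (range (2 * m)).powerset, (dist x T : ℝ) * μ x T <
      #(slice m) * (((θ : ℝ) + 1) / 2) := by
    rw [← nsmul_eq_mul, ← sum_const]
    exact sum_lt_sum_of_nonempty hne hcon
  have h5 : ((θ : ℝ) + 1) * ((#(slice m) : ℝ) -
      ∑ T ∈ (range (2 * m)).powerset, ∑ x ∈ (slice m).filter (fun x => dist x T ≤ θ), μ x T) ≤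
      ∑ x ∈ slice m, ∑ T ∈ (range (2 * m)).powerset, (dist x T : ℝ) * μ x T := by
    have h6 : (#(slice m) : ℝ) = ∑ T ∈ (range (2 * m)).powerset, ∑ x ∈ slice m, μ x T := by
      rw [sum_comm, sum_congr rfl hsum]
      simp
    rw [h6, ← sum_sub_distrib, mul_sum, sum_comm (s := slice m)]
    refine sum_le_sum fun T _ => ?_
    rw [sum_filter, ← sum_sub_distrib, mul_sum]
    refine sum_le_sum fun x _ => ?_
    by_cases hd : dist x T ≤ θ
    · simp only [hd, if_true, sub_self, mul_zero]
      exact mul_nonneg (by positivity) (hμ x T)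
    · simp only [hd, if_false, sub_zero]
      refine mul_le_mul_of_nonneg_right ?_ (hμ x T)
      have : θ + 1 ≤ dist x T := by omega
      exact_mod_cast this
  have h7 : ((θ : ℝ) + 1) * ((#(slice m) : ℝ) / 2) ≤ ((θ : ℝ) + 1) * ((#(slice m) : ℝ) -
      ∑ T ∈ (range (2 * m)).powerset, ∑ x ∈ (slice m).filter (fun x => dist x T ≤ θ), μ x T) := by
    refine mul_le_mul_of_nonneg_left ?_ (by positivity)
    linarith
  linarith

end Counting

section Staircase

/-- The staircase partition with extra boxes in the rows of `x` and `e` extra boxes in row `0`. -/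
def stair (m e : ℕ) (x : Finset ℕ) (i : ℕ) : ℕ :=
  if i < 2 * m then (2 * m - i) + (if i ∈ x then 1 else 0) + (if i = 0 then e else 0) else 0

/-- The base values. -/
def base (m e i : ℕ) : ℕ := (2 * m - i) + (if i = 0 then e else 0)

theorem stair_antitone (m e : ℕ) (x : Finset ℕ) : Antitone (stair m e x) := by
  refine antitone_nat_of_succ_le fun i => ?_
  simp only [stair, Nat.add_eq_zero_iff, one_ne_zero, and_false, if_false, add_zero]
  split_ifs <;> omega

theorem stair_size (m e : ℕ) (x : Finset ℕ) (hm : 0 < m) (hx : x ⊆ range (2 * m)) :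
    size (stair m e x) = ((m * (2 * m + 1) + #x + e : ℕ) : ℝ≥0∞) := by
  have h1 : size (stair m e x) = ∑ i ∈ range (2 * m), (stair m e x i : ℝ≥0∞) := by
    refine tsum_eq_sum fun i hi => ?_
    have : ¬ i < 2 * m := by simpa using hi
    simp [stair, this]
  rw [h1, ← Nat.cast_sum]
  congr 1
  have h2 : ∑ i ∈ range (2 * m), stair m e x i =
      ∑ i ∈ range (2 * m), ((2 * m - i) + (if i ∈ x then 1 else 0) + (if i = 0 then e else 0)) := by
    refine sum_congr rfl fun i hi => ?_
    simp [stair, mem_range.1 hi]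
  rw [h2, sum_add_distrib, sum_add_distrib]
  congr 1
  · congr 1
    · have h3 : ∀ k : ℕ, ∑ i ∈ range k, (k - i) = ∑ i ∈ range (k + 1), i := by
        intro k
        rw [sum_range_succ', ← sum_range_reflect]
        simp only [add_zero]
        refine sum_congr rfl fun i hi => ?_
        have := mem_range.1 hi
        omega
      rw [h3, ← Nat.mul_left_inj (two_ne_zero), sum_range_id_mul_two]
      simp only [Nat.add_sub_cancel]
      ring
    · rw [← card_filter, filter_mem_eq_inter, inter_eq_right.2 hx]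
  · rw [sum_ite_eq' (range (2 * m)) 0 fun _ => e]
    simp [hm]

theorem l1_stair (m e : ℕ) {x : Finset ℕ} (hx : x ⊆ range (2 * m)) {i : ℕ} (hi : i ∈ x) :
    l1 (toRealSeq (stair m e x)) (toRealSeq (stair m e (x.erase i))) = 1 := by
  unfold l1
  rw [tsum_eq_single i]
  · have h1 : i < 2 * m := mem_range.1 (hx hi)
    simp [toRealSeq, stair, h1, hi]
  · intro j hj
    have : stair m e (x.erase i) j = stair m e x j := by
      simp [stair, mem_erase, hj]
    simp [toRealSeq, this]

theorem l1_comm (x y : ℕ → ℝ) : l1 x y = l1 y x := by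
  unfold l1
  exact tsum_congr fun i => by rw [abs_sub_comm]

/-- The set read off from an output sequence. -/
noncomputable def readSet (m e : ℕ) (z : ℕ → ℝ) : Finset ℕ :=
  (range (2 * m)).filter (fun i => 1 / 2 ≤ z i - base m e i)

/-- The event that the set `T` is read off. -/
def ev (m e : ℕ) (T : Finset ℕ) : Set (ℕ → ℝ) := {z | readSet m e z = T}

theorem measurableSet_ev (m e : ℕ) (T : Finset ℕ) : MeasurableSet (ev m e T) := by
  by_cases hT : T ⊆ range (2 * m)
  · have h : ev m e T = ⋂ i ∈ range (2 * m), {z : ℕ → ℝ | (1 / 2 ≤ z i - base m e i) ↔ i ∈ T} := by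
      ext z
      simp only [ev, Set.mem_ofPred_eq, Set.mem_iInter, readSet, Finset.ext_iff, mem_filter]
      constructor
      · intro h i hi
        rw [← h i]
        exact ⟨fun h' => ⟨hi, h'⟩, fun h' => h'.2⟩
      · intro h i
        constructor
        · rintro ⟨h1, h2⟩
          exact (h i h1).1 h2
        · intro h1
          exact ⟨hT h1, (h i (hT h1)).2 h1⟩
    rw [h]
    refine Finset.measurableSet_biInter _ fun i _ => ?_
    have hm : MeasurableSet {z : ℕ → ℝ | 1 / 2 ≤ z i - base m e i} := by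
      apply measurableSet_le measurable_const
      exact (measurable_pi_apply i).sub measurable_const
    by_cases hi : i ∈ T
    · simpa [hi] using hm
    · have : {z : ℕ → ℝ | (1 / 2 ≤ z i - base m e i) ↔ i ∈ T} =
          {z : ℕ → ℝ | 1 / 2 ≤ z i - base m e i}ᶜ := by
        ext z
        simp [hi]
      rw [this]
      exact hm.compl
  · have : ev m e T = ∅ := by
      ext z
      simp only [ev, Set.mem_ofPred_eq, Set.mem_empty_iff_false, iff_false]
      rintro rfl
      exact hT (filter_subset _ _)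
    rw [this]
    exact MeasurableSet.empty

/-- The `ℓ₁`-error is at least half the number of mistakes of the set read off. -/
theorem l1_ge (m e : ℕ) {x : Finset ℕ} (hx : x ⊆ range (2 * m)) (z : ℕ → ℝ) :
    ENNReal.ofReal ((dist x (readSet m e z) : ℝ) / 2) ≤ l1 z (toRealSeq (stair m e x)) := by
  have h1 : ∑ i ∈ range (2 * m), ENNReal.ofReal |z i - toRealSeq (stair m e x) i| ≤
      l1 z (toRealSeq (stair m e x)) := ENNReal.sum_le_tsum _
  refine le_trans ?_ h1
  rw [← ENNReal.ofReal_sum_of_nonneg fun _ _ => abs_nonneg _]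
  refine ENNReal.ofReal_le_ofReal ?_
  have h2 : ∀ A ⊆ range (2 * m), (∀ i ∈ A, 1 / 2 ≤ |z i - toRealSeq (stair m e x) i|) →
      (#A : ℝ) / 2 ≤ ∑ i ∈ A, |z i - toRealSeq (stair m e x) i| := by
    intro A _ hA2
    have := Finset.card_nsmul_le_sum A (fun i => |z i - toRealSeq (stair m e x) i|) (1 / 2) hA2
    rw [nsmul_eq_mul] at this
    linarith
  have hT : readSet m e z ⊆ range (2 * m) := filter_subset _ _
  have h3 := h2 (x \ readSet m e z ∪ readSet m e z \ x)
    (union_subset (sdiff_subset.trans hx) (sdiff_subset.trans hT)) ?_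
  · have hdisj : Disjoint (x \ readSet m e z) (readSet m e z \ x) :=
      disjoint_sdiff_sdiff
    rw [card_union_of_disjoint hdisj] at h3
    refine le_trans ?_ (h3.trans (sum_le_sum_of_subset_of_nonneg
      (union_subset (sdiff_subset.trans hx) (sdiff_subset.trans hT)) fun _ _ _ => abs_nonneg _))
    rw [dist]
  · intro i hi
    rcases mem_union.1 hi with hi | hi
    · obtain ⟨hi1, hi2⟩ := mem_sdiff.1 hi
      have hlt := mem_range.1 (hx hi1)
      have h4 : (stair m e x i : ℝ) = base m e i + 1 := by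
        simp only [stair, base, hlt, hi1, if_true]
        push_cast
        ring
      have h5 : ¬ (1 / 2 ≤ z i - base m e i) := fun h =>
        hi2 (mem_filter.2 ⟨hx hi1, h⟩)
      rw [toRealSeq, h4, abs_sub_comm]
      refine le_trans ?_ (le_abs_self _)
      linarith
    · obtain ⟨hi1, hi2⟩ := mem_sdiff.1 hi
      obtain ⟨hi3, hi4⟩ := mem_filter.1 hi1
      have hlt := mem_range.1 hi3
      have h4 : (stair m e x i : ℝ) = base m e i := by
        simp only [stair, base, hlt, hi2, if_true, if_false]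
        push_cast
        ring
      rw [toRealSeq, h4]
      exact hi4.trans (le_abs_self _)

end Staircase


section Final

/-- Lower bound of the error by a finite sum. -/
theorem err_ge (A : (ℕ → ℕ) → Measure (ℕ → ℝ)) (m e : ℕ) {x : Finset ℕ}
    (hx : x ⊆ range (2 * m)) :
    ∑ T ∈ (range (2 * m)).powerset, ENNReal.ofReal ((dist x T : ℝ) / 2) *
      A (stair m e x) (ev m e T) ≤ err A (stair m e x) := by
  have h1 : ∫⁻ z, ∑ T ∈ (range (2 * m)).powerset,
      (ev m e T).indicator (fun _ => ENNReal.ofReal ((dist x T : ℝ) / 2)) z ∂(A (stair m e x)) ≤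
      err A (stair m e x) := by
    refine lintegral_mono fun z => ?_
    refine le_trans (le_of_eq ?_) (l1_ge m e hx z)
    rw [sum_eq_single (readSet m e z)]
    · rw [Set.indicator_of_mem]
      exact rfl
    · intro T _ hT
      rw [Set.indicator_of_notMem]
      exact fun h => hT h.symm
    · intro h
      exact absurd (mem_powerset.2 (filter_subset _ _)) h
  refine le_trans (le_of_eq ?_) h1
  rw [lintegral_finsetSum _ fun T _ => measurable_const.indicator (measurableSet_ev m e T)]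
  refine sum_congr rfl fun T _ => ?_
  rw [lintegral_indicator_const (measurableSet_ev m e T)]

/-- The events `ev m e T` partition the space. -/
theorem sum_ev (μ : Measure (ℕ → ℝ)) [IsProbabilityMeasure μ] (m e : ℕ) :
    ∑ T ∈ (range (2 * m)).powerset, (μ (ev m e T)).toReal = 1 := by
  rw [← ENNReal.toReal_sum fun T _ => measure_ne_top μ _]
  rw [← measure_biUnion_finset]
  · have : (⋃ T ∈ (range (2 * m)).powerset, ev m e T) = Set.univ := by
      ext z
      simp only [Set.mem_iUnion, Set.mem_univ, iff_true]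
      exact ⟨readSet m e z, mem_powerset.2 (filter_subset _ _), rfl⟩
    rw [this, measure_univ, ENNReal.toReal_one]
  · intro T _ T' _ hne
    rw [Function.onFun, Set.disjoint_left]
    rintro z (h : readSet m e z = T) (h' : readSet m e z = T')
    exact hne (h.symm.trans h')
  · exact fun T _ => measurableSet_ev m e T

/-- **Full answer.**  For every `ε ≥ 1` and every `n ≥ 256 e^{2ε}`, every `ε`-DP algorithm has
expected `ℓ₁`-error at least `(1/32) √n / e^ε` on some partition of size exactly `n`. -/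
theorem result (ε : ℝ) (hε : 1 ≤ ε) (n : ℕ) (hn : 256 * Real.exp (2 * ε) ≤ n)
    (A : (ℕ → ℕ) → Measure (ℕ → ℝ)) (hA : IsAlgorithm n A) (hDP : IsDP ε n A) :
    ∃ p ∈ PartEq n, ENNReal.ofReal (1 / 32 * (Real.sqrt n / Real.exp ε)) ≤ err A p := by
  -- parameters
  have hexp : (1 : ℝ) < Real.exp ε := Real.one_lt_exp_iff.2 (by linarith)
  have hexp0 : (0 : ℝ) < Real.exp ε := Real.exp_pos ε
  have he2 : Real.exp (2 * ε) = Real.exp ε ^ 2 := by
    rw [← Real.exp_nat_mul]; norm_num
  have hexp2 : (2 : ℝ) < Real.exp ε := by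
    have h1 := Real.add_one_le_exp ε
    have h2 : (2 : ℝ) < Real.exp 1 := by
      have := Real.exp_one_gt_d9
      linarith
    exact h2.trans_le (Real.exp_le_exp.2 hε)
  have hsq : 16 * Real.exp ε ≤ Real.sqrt n := by
    apply Real.le_sqrt_of_sq_le
    rw [mul_pow, ← he2]
    linarith
  set r := Nat.sqrt n with hr
  have hr1 : (r : ℝ) ≤ Real.sqrt n := Real.nat_sqrt_le_real_sqrt
  have hr2 : Real.sqrt n ≤ r + 1 := Real.real_sqrt_le_nat_sqrt_succ
  set m := r / 2 with hm
  have hm1 : 2 * m ≤ r := Nat.mul_div_le r 2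
  have hm2 : r ≤ 2 * m + 1 := by omega
  have hm3 : Real.sqrt n / 2 - 1 ≤ m := by
    have : (r : ℝ) ≤ 2 * m + 1 := by exact_mod_cast hm2
    linarith
  have hm4 : Real.sqrt n / 4 ≤ m := by linarith
  have hm5 : 4 * Real.exp ε ≤ m := by linarith
  have hmpos : 0 < m := by
    have : (0 : ℝ) < m := by linarith
    exact_mod_cast this
  have hrn : r * r ≤ n := Nat.sqrt_le n
  have hsz : m * (2 * m + 1) + m ≤ n := by
    refine le_trans ?_ hrn
    nlinarith
  set e := n - (m * (2 * m + 1) + m) with he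
  have hen : m * (2 * m + 1) + m + e = n := by omega
  -- the number `s = θ + 2`
  set s := ⌊(m : ℝ) / Real.exp ε⌋₊ with hs
  have hme : 4 ≤ (m : ℝ) / Real.exp ε := by
    rw [le_div_iff₀ hexp0]; exact hm5
  have hs1 : (s : ℝ) ≤ (m : ℝ) / Real.exp ε := Nat.floor_le (by positivity)
  have hs2 : (m : ℝ) / Real.exp ε < s + 1 := Nat.lt_floor_add_one _
  have hs3 : 4 ≤ s := by
    have : (4 : ℝ) < s + 1 := by linarith
    have : (4 : ℕ) < s + 1 := by exact_mod_cast this
    omega
  obtain ⟨θ, hθ⟩ : ∃ θ, s = θ + 2 := ⟨s - 2, by omega⟩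
  have hθ1 : (θ : ℝ) + 2 = s := by rw [hθ]; push_cast; ring
  have hmr : (0 : ℝ) < m := by exact_mod_cast hmpos
  have hs4 : (s : ℝ) ≤ m / 2 := by
    refine hs1.trans ?_
    exact div_le_div_of_nonneg_left hmr.le (by norm_num) hexp2.le
  have hθ2 : (m : ℝ) / 2 ≤ m - θ := by linarith
  have hpos : 0 < (m : ℝ) * (m - θ) := mul_pos hmr (by linarith)
  have hnum : Real.exp ε ^ 2 * ((θ + 2 : ℝ) ^ 2 / 4) ≤ (m : ℝ) * (m - θ) / 2 := by
    rw [hθ1]
    have h1 : Real.exp ε * s ≤ m := by
      rw [le_div_iff₀ hexp0] at hs1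
      linarith
    have h2 : (Real.exp ε * s) ^ 2 ≤ (m : ℝ) ^ 2 := by
      apply pow_le_pow_left₀ (by positivity) h1
    have h3 : (m : ℝ) * (m / 2) ≤ m * (m - θ) := mul_le_mul_of_nonneg_left hθ2 hmr.le
    nlinarith
  -- partitions
  have hpart : ∀ x ∈ slice m, stair m e x ∈ PartEq n := by
    intro x hx
    obtain ⟨hx1, hx2⟩ := mem_slice.1 hx
    refine ⟨stair_antitone m e x, ?_⟩
    rw [stair_size m e x hmpos hx1, hx2, hen]
  have hle : ∀ x ∈ slice m, stair m e x ∈ PartLe n := fun x hx =>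
    ⟨(hpart x hx).1, (hpart x hx).2.le⟩
  have hpart' : ∀ x ∈ slice m, ∀ i ∈ x, stair m e (x.erase i) ∈ PartLe n := by
    intro x hx i hi
    obtain ⟨hx1, hx2⟩ := mem_slice.1 hx
    refine ⟨stair_antitone m e _, ?_⟩
    rw [stair_size m e _ hmpos ((erase_subset _ _).trans hx1)]
    have h1 : #(x.erase i) ≤ #x := card_le_card (erase_subset _ _)
    have h2 : m * (2 * m + 1) + #(x.erase i) + e ≤ n := by omega
    exact_mod_cast h2
  have hprob : ∀ x ∈ slice m, IsProbabilityMeasure (A (stair m e x)) := fun x hx =>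
    hA _ (hle x hx)
  -- the two-step privacy inequality
  have htwo : ∀ T, ∀ x ∈ slice m, ∀ i ∈ x, ∀ j ∈ range (2 * m), j ∉ x →
      A (stair m e x) (ev m e T) ≤
        ENNReal.ofReal (Real.exp ε ^ 2) * A (stair m e (sw i j x)) (ev m e T) := by
    intro T x hx i hi j hj hjx
    have hy : sw i j x ∈ slice m := sw_mem_slice hx hi hjx hj
    have hye : (sw i j x).erase j = x.erase i := by
      rw [sw, erase_insert fun h => hjx (mem_of_mem_erase h)]
    have h1 : A (stair m e x) (ev m e T) ≤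
        ENNReal.ofReal (Real.exp ε) * A (stair m e (x.erase i)) (ev m e T) := by
      refine hDP _ (hle x hx) _ (hpart' x hx i hi) ?_ _ (measurableSet_ev m e T)
      rw [Neighbours, l1_stair m e (mem_slice.1 hx).1 hi]
    have h2 : A (stair m e (x.erase i)) (ev m e T) ≤
        ENNReal.ofReal (Real.exp ε) * A (stair m e (sw i j x)) (ev m e T) := by
      rw [← hye]
      have hjy : j ∈ sw i j x := mem_insert_self _ _
      refine hDP _ (hpart' _ hy j hjy) _ (hle _ hy) ?_ _ (measurableSet_ev m e T)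
      rw [Neighbours, l1_comm, l1_stair m e (mem_slice.1 hy).1 hjy]
    refine h1.trans ((mul_le_mul_right h2 _).trans (le_of_eq ?_))
    rw [← mul_assoc, ← ENNReal.ofReal_mul hexp0.le, sq]
  -- apply the averaging lemma to real numbers
  let μ : Finset ℕ → Finset ℕ → ℝ := fun x T =>
    if x ∈ slice m then (A (stair m e x) (ev m e T)).toReal else 0
  obtain ⟨x, hx, hbig⟩ := exists_large (m := m) (θ := θ) (c := Real.exp ε ^ 2) (by positivity) μ
    (fun x T => by
      by_cases h : x ∈ slice m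
      · simp [μ, h]
      · simp [μ, h])
    (fun x hx => by
      have := hprob x hx
      simp only [μ, hx, if_true]
      exact sum_ev _ m e)
    (fun T x hx i hi j hj hjx => by
      have hy : sw i j x ∈ slice m := sw_mem_slice hx hi hjx hj
      have := hprob x hx
      have := hprob _ hy
      simp only [μ, hx, hy, if_true]
      have h1 := ENNReal.toReal_mono (ENNReal.mul_ne_top ENNReal.ofReal_ne_top
        (measure_ne_top _ _)) (htwo T x hx i hi j hj hjx)
      rwa [ENNReal.toReal_mul, ENNReal.toReal_ofReal (by positivity)] at h1)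
    hpos hnum
  refine ⟨stair m e x, hpart x hx, ?_⟩
  have := hprob x hx
  refine le_trans ?_ (err_ge A m e (mem_slice.1 hx).1)
  have h1 : ∑ T ∈ (range (2 * m)).powerset, ENNReal.ofReal ((dist x T : ℝ) / 2) *
      A (stair m e x) (ev m e T) = ENNReal.ofReal
        (∑ T ∈ (range (2 * m)).powerset, (dist x T : ℝ) / 2 * μ x T) := by
    rw [ENNReal.ofReal_sum_of_nonneg]
    · refine sum_congr rfl fun T _ => ?_
      rw [ENNReal.ofReal_mul (by positivity)]
      simp only [μ, hx, if_true]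
      rw [ENNReal.ofReal_toReal (measure_ne_top _ _)]
    · intro T _
      simp only [μ, hx, if_true]
      positivity
  rw [h1]
  refine ENNReal.ofReal_le_ofReal ?_
  have h2 : ∑ T ∈ (range (2 * m)).powerset, (dist x T : ℝ) / 2 * μ x T =
      (∑ T ∈ (range (2 * m)).powerset, (dist x T : ℝ) * μ x T) / 2 := by
    rw [sum_div]
    exact sum_congr rfl fun T _ => by ring
  rw [h2]
  have h3 : (m : ℝ) / Real.exp ε / 8 ≤ ((θ : ℝ) + 1) / 2 / 2 := by linarith
  have h4 : 1 / 32 * (Real.sqrt n / Real.exp ε) ≤ (m : ℝ) / Real.exp ε / 8 := by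
    have : Real.sqrt n / 4 / Real.exp ε ≤ (m : ℝ) / Real.exp ε :=
      div_le_div_of_nonneg_right hm4 hexp0.le
    have h5 : Real.sqrt n / 4 / Real.exp ε = Real.sqrt n / Real.exp ε / 4 := by ring
    linarith
  linarith

end Final

end Pool.Agent.Results.MP_c9d3d4_lc.NonUniformLower
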